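import Mathlib
import Pool.Agent.Helper21.MT7.Stmts

/-!
# The Mumford-Tate group is contained in the connected group of similitudes
-/

set_option autoImplicit false

open NumberField MU

namespace MT
namespace Hdg

/-- the sign of a map, as a determinant -/
def Em {n : ℕ} (R : Type) [CommRing R] (i : Fin n → Fin n) : Matrix (Fin n) (Fin n) R :=
  Matrix.of fun x s => if i s = x then 1 else 0

lemma Em_id {n : ℕ} (R : Type) [CommRing R] : Em R (id : Fin n → Fin n) = 1 := by
  ext x s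
  simp only [Em, Matrix.of_apply, id, Matrix.one_apply]
  by_cases h : x = s
  · subst h; simp
  · rw [if_neg h, if_neg (fun e => h e.symm)]

lemma Em_apply {n : ℕ} (R : Type) [CommRing R] (i : Fin n → Fin n) (x s : Fin n) :
    Em R i x s = if i s = x then 1 else 0 := rfl

lemma det_sum {n : ℕ} {R : Type} [CommRing R] (A : Matrix (Fin n) (Fin n) R) :
    A.det = ∑ σ : Equiv.Perm (Fin n), ((Equiv.Perm.sign σ : ℤ) : R) * ∏ s, A (σ s) s :=
  Matrix.det_apply' A

lemma sum_det {n : ℕ} {R : Type} [CommRing R] (g : Matrix (Fin n) (Fin n) R)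
    (i : Fin n → Fin n) :
    ∑ i' : Fin n → Fin n, (∏ s, g (i s) (i' s)) * (Em R i').det = g.det * (Em R i).det := by
  classical
  have h1 : g.det * (Em R i).det = (g.transpose * Em R i).det := by
    rw [Matrix.det_mul, Matrix.det_transpose]
  have h2 : ∀ x s, (g.transpose * Em R i) x s = g (i s) x := by
    intro x s
    rw [Matrix.mul_apply, Finset.sum_eq_single (i s)]
    · rw [Em_apply, if_pos rfl, mul_one, Matrix.transpose_apply]
    · intro y _ hy
      rw [Em_apply, if_neg (Ne.symm hy), mul_zero]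
    · intro h; exact absurd (Finset.mem_univ _) h
  have h3 : ∀ σ : Equiv.Perm (Fin n), ∏ s, (g.transpose * Em R i) (σ s) s =
      ∏ s, g (i s) (σ s) := fun σ => Finset.prod_congr rfl fun s _ => h2 _ _
  have h4 : ∀ (i' : Fin n → Fin n) (σ : Equiv.Perm (Fin n)), ∏ s, Em R i' (σ s) s =
      if i' = σ then 1 else 0 := by
    intro i' σ
    split_ifs with he
    · refine Finset.prod_eq_one fun s _ => ?_
      rw [Em_apply, he, if_pos rfl]
    · obtain ⟨s, hs⟩ : ∃ s, i' s ≠ σ s := by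
        by_contra hcon
        push Not at hcon
        exact he (funext hcon)
      refine Finset.prod_eq_zero (i := s) (Finset.mem_univ s) ?_
      rw [Em_apply, if_neg hs]
  have h6 : (g.transpose * Em R i).det = ∑ σ : Equiv.Perm (Fin n),
      ((Equiv.Perm.sign σ : ℤ) : R) * ∏ s, g (i s) (σ s) := by
    rw [det_sum]
    refine Finset.sum_congr rfl fun σ _ => ?_
    rw [h3 σ]
  rw [h1, h6]
  have h5 : ∀ i' : Fin n → Fin n, (∏ s, g (i s) (i' s)) * (Em R i').det =
      ∑ σ : Equiv.Perm (Fin n), ((Equiv.Perm.sign σ : ℤ) : R) *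
        (if i' = σ then ∏ s, g (i s) (σ s) else 0) := by
    intro i'
    rw [det_sum, Finset.mul_sum]
    refine Finset.sum_congr rfl fun σ _ => ?_
    rw [h4]
    split_ifs with he
    · rw [he]; ring
    · ring
  rw [Finset.sum_congr rfl (fun i' _ => h5 i'), Finset.sum_comm]
  refine Finset.sum_congr rfl fun σ _ => ?_
  rw [← Finset.mul_sum, Finset.sum_ite_eq' Finset.univ (σ : Fin n → Fin n)
    (fun _ => ∏ s, g (i s) (σ s)), if_pos (Finset.mem_univ _)]

/-- pairs of indices -/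
def prs {α : Type} (m : ℕ) : (Fin (m + m) → α) ≃ (Fin m → α × α) where
  toFun j := fun r => (j (Fin.castAdd m r), j (Fin.natAdd m r))
  invFun q := Fin.append (fun r => (q r).1) (fun r => (q r).2)
  left_inv j := by
    funext x
    refine Fin.addCases (fun r => ?_) (fun r => ?_) x
    · exact Fin.append_left _ _ r
    · exact Fin.append_right _ _ r
  right_inv q := by
    funext r
    refine Prod.ext ?_ ?_
    · exact Fin.append_left (fun r => (q r).1) (fun r => (q r).2) r
    · exact Fin.append_right (fun r => (q r).1) (fun r => (q r).2) r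

lemma sum_pair {n : ℕ} {R : Type} [CommRing R] (m : ℕ) (A ψ : Matrix (Fin n) (Fin n) R)
    (j : Fin (m + m) → Fin n) :
    ∑ j' : Fin (m + m) → Fin n, (∏ s, A (j' s) (j s)) *
      (∏ r : Fin m, ψ (j' (Fin.castAdd m r)) (j' (Fin.natAdd m r))) =
    ∏ r : Fin m, (A.transpose * ψ * A) (j (Fin.castAdd m r)) (j (Fin.natAdd m r)) := by
  classical
  have h1 : ∀ r : Fin m, (A.transpose * ψ * A) (j (Fin.castAdd m r)) (j (Fin.natAdd m r)) =
      ∑ p : Fin n × Fin n, A p.1 (j (Fin.castAdd m r)) * A p.2 (j (Fin.natAdd m r)) *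
        ψ p.1 p.2 := by
    intro r
    rw [Matrix.mul_apply, Fintype.sum_prod_type, Finset.sum_comm]
    refine Finset.sum_congr rfl fun v _ => ?_
    rw [Matrix.mul_apply, Finset.sum_mul]
    refine Finset.sum_congr rfl fun u _ => ?_
    rw [Matrix.transpose_apply]; ring
  rw [Finset.prod_congr rfl (fun r _ => h1 r), Finset.prod_univ_sum, Fintype.piFinset_univ]
  refine Fintype.sum_equiv (prs m) _ _ fun j' => ?_
  rw [Fin.prod_univ_add, ← Finset.prod_mul_distrib, ← Finset.prod_mul_distrib]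
  rfl

/-- the tensor `det ⊗ ψ^(n/2)` -/
noncomputable def pf {n : ℕ} (m : ℕ) (ψ : Matrix (Fin n) (Fin n) ℚ) : Tensor n n (m + m) ℚ :=
  fun i j => (Em ℚ i).det * ∏ r : Fin m, ψ (j (Fin.castAdd m r)) (j (Fin.natAdd m r))

lemma pf_base {n : ℕ} (m : ℕ) (ψ : Matrix (Fin n) (Fin n) ℚ) (K : Type) [Field K] [CharZero K]
    (i : Fin n → Fin n) (j : Fin (m + m) → Fin n) :
    (pf m ψ).base K i j = (Em K i).det *
      ∏ r : Fin m, (bas K ψ) (j (Fin.castAdd m r)) (j (Fin.natAdd m r)) := by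
  have h := RingHom.map_det (algebraMap ℚ K) (Em ℚ i)
  have h2 : (algebraMap ℚ K).mapMatrix (Em ℚ i) = Em K i := by
    ext x s
    simp only [Em, RingHom.mapMatrix_apply, Matrix.map_apply, Matrix.of_apply]
    split_ifs <;> simp
  rw [h2] at h
  rw [← h]
  simp only [Tensor.base, pf, bas, Matrix.map_apply, Rat.cast_mul, Rat.cast_prod, eq_ratCast]

lemma act_pf {n : ℕ} (m : ℕ) (ψ : Matrix (Fin n) (Fin n) ℚ) (K : Type) [Field K] [CharZero K]
    (g : Matrix.GeneralLinearGroup (Fin n) K) (c : K) (hc : c ≠ 0)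
    (hg : (g : Matrix (Fin n) (Fin n) K).transpose * bas K ψ *
    (g : Matrix (Fin n) (Fin n) K) = c • bas K ψ) :
    act g ((pf m ψ).base K) =
      fun i j => (g : Matrix (Fin n) (Fin n) K).det * (c⁻¹) ^ m * (pf m ψ).base K i j := by
  funext i j
  unfold act
  set A : Matrix (Fin n) (Fin n) K :=
    ((g⁻¹ : Matrix.GeneralLinearGroup (Fin n) K) : Matrix (Fin n) (Fin n) K) with hA
  have hgA : (g : Matrix (Fin n) (Fin n) K) * A = 1 := by
    rw [hA, ← Units.val_mul, mul_inv_cancel]; rfl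
  have hAg : A * (g : Matrix (Fin n) (Fin n) K) = 1 := by
    rw [hA, ← Units.val_mul, inv_mul_cancel]; rfl
  have hAψ : A.transpose * bas K ψ * A = c⁻¹ • bas K ψ := by
    have h1 : A.transpose * ((g : Matrix (Fin n) (Fin n) K).transpose * bas K ψ *
        (g : Matrix (Fin n) (Fin n) K)) * A = bas K ψ := by
      have h2 : A.transpose * (g : Matrix (Fin n) (Fin n) K).transpose = 1 := by
        rw [← Matrix.transpose_mul, hgA, Matrix.transpose_one]
      calc A.transpose * ((g : Matrix (Fin n) (Fin n) K).transpose * bas K ψ *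
            (g : Matrix (Fin n) (Fin n) K)) * A
          = (A.transpose * (g : Matrix (Fin n) (Fin n) K).transpose) * bas K ψ *
            ((g : Matrix (Fin n) (Fin n) K) * A) := by simp only [Matrix.mul_assoc]
        _ = bas K ψ := by rw [h2, hgA, Matrix.one_mul, Matrix.mul_one]
    rw [hg, Matrix.mul_smul, Matrix.smul_mul] at h1
    rw [← h1, smul_smul, inv_mul_cancel₀ hc, one_smul, h1]
  have h3 : ∑ i' : Fin n → Fin n, ∑ j' : Fin (m + m) → Fin n,
      (∏ s, (g : Matrix (Fin n) (Fin n) K) (i s) (i' s)) * (∏ s, A (j' s) (j s)) *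
        (pf m ψ).base K i' j' =
      (∑ i' : Fin n → Fin n, (∏ s, (g : Matrix (Fin n) (Fin n) K) (i s) (i' s)) *
        (Em K i').det) *
      ∑ j' : Fin (m + m) → Fin n, (∏ s, A (j' s) (j s)) *
        (∏ r : Fin m, (bas K ψ) (j' (Fin.castAdd m r)) (j' (Fin.natAdd m r))) := by
    rw [Finset.sum_mul_sum]
    refine Finset.sum_congr rfl fun i' _ => Finset.sum_congr rfl fun j' _ => ?_
    rw [pf_base]; ring
  rw [h3, sum_det, sum_pair, hAψ, pf_base]
  simp only [Matrix.smul_apply, smul_eq_mul, Finset.prod_mul_distrib, Finset.prod_const,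
    Finset.card_univ, Fintype.card_fin]
  ring

lemma exists_perm {n : ℕ} {P : Matrix (Fin n) (Fin n) ℂ} (hP : P.det ≠ 0) :
    ∃ σ : Equiv.Perm (Fin n), ∀ i, P (σ i) i ≠ 0 := by
  by_contra hcon
  push Not at hcon
  apply hP
  rw [det_sum]
  refine Finset.sum_eq_zero fun σ _ => ?_
  obtain ⟨i, hi⟩ := hcon σ
  have h0 : ∏ s, P (σ s) s = 0 := Finset.prod_eq_zero (Finset.mem_univ i) hi
  rw [h0, mul_zero]

variable {F : Type} [Field F] [NumberField F] {S : Finset ℕ} {n w : ℕ} {h : Fin n → ℕ}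

lemma bas_det (K : Type) [Field K] [CharZero K] {n : ℕ} {ψ : Matrix (Fin n) (Fin n) ℚ}
    (hψ : ψ.det ≠ 0) : (bas K ψ).det ≠ 0 := by
  have h := RingHom.map_det (algebraMap ℚ K) ψ
  have h2 : (algebraMap ℚ K).mapMatrix ψ = bas K ψ := by
    ext x s
    simp [bas]
  rw [h2] at h
  rw [← h]
  exact (map_ne_zero _).2 hψ

lemma sum_h (M : PMot F S n w h) : 2 * ∑ j, h j = n * w := by
  have hP : ((M.hodge : Matrix (Fin n) (Fin n) ℂ).transpose * bas ℂ M.ψ *
      (M.hodge : Matrix (Fin n) (Fin n) ℂ)).det ≠ 0 := by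
    rw [Matrix.det_mul, Matrix.det_mul, Matrix.det_transpose]
    have h1 : (M.hodge : Matrix (Fin n) (Fin n) ℂ).det ≠ 0 := by
      have := (Matrix.isUnit_iff_isUnit_det _).1 (M.hodge).isUnit
      exact this.ne_zero
    exact mul_ne_zero (mul_ne_zero h1 (bas_det ℂ M.ψ_det)) h1
  obtain ⟨σ, hσ⟩ := exists_perm hP
  have h2 : ∀ i, h (σ i) + h i = w := fun i => M.hodge_ψ _ _ (hσ i)
  have h3 : ∑ i, (h (σ i) + h i) = n * w := by
    rw [Finset.sum_congr rfl (fun i _ => h2 i)]
    simp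
  rw [Finset.sum_add_distrib, Equiv.sum_comp σ h] at h3
  omega

/-- the action of `z` in the Hodge basis -/
noncomputable def dz {n : ℕ} (h : Fin n → ℕ) (w : ℕ) (z : ℂˣ) : Fin n → ℂ :=
  fun j => (z : ℂ) ^ h j * ((starRingEnd ℂ) (z : ℂ)) ^ (w - h j)

lemma hz_eq (B : Matrix.GeneralLinearGroup (Fin n) ℂ) (z : ℂˣ) :
    (hz B h w z : Matrix (Fin n) (Fin n) ℂ) = (B : Matrix (Fin n) (Fin n) ℂ) *
      Matrix.diagonal (dz h w z) *
      ((B⁻¹ : Matrix.GeneralLinearGroup (Fin n) ℂ) : Matrix (Fin n) (Fin n) ℂ) := by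
  unfold hz
  rw [Units.val_mul, Units.val_mul]
  congr 2

lemma hz_det (M : PMot F S n w h) (z : ℂˣ) {m : ℕ} (hm : n = m + m) :
    (hz M.hodge h w z : Matrix (Fin n) (Fin n) ℂ).det =
      (((z : ℂ) * (starRingEnd ℂ) (z : ℂ)) ^ w) ^ m := by
  rw [hz_eq, Matrix.det_mul, Matrix.det_mul, mul_comm, ← mul_assoc, ← Matrix.det_mul,
    ← Units.val_mul, inv_mul_cancel, Units.val_one, Matrix.det_one, one_mul,
    Matrix.det_diagonal]
  simp only [dz]
  rw [Finset.prod_mul_distrib, Finset.prod_pow_eq_pow_sum, Finset.prod_pow_eq_pow_sum]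
  have h1 := sum_h M
  have hnw : n * w = 2 * (m * w) := by
    calc n * w = (m + m) * w := by rw [← hm]
      _ = _ := by ring
  have h2 : ∑ j, h j = m * w := by omega
  have h3 : ∑ j, (w - h j) = m * w := by
    have h4 : ∑ j, (w - h j) + ∑ j, h j = n * w := by
      rw [← Finset.sum_add_distrib, Finset.sum_congr rfl
        (fun j _ => Nat.sub_add_cancel (M.hodge_le j))]
      simp
    omega
  rw [h2, h3, ← mul_pow, ← pow_mul, mul_comm m w]

lemma hz_sim (M : PMot F S n w h) (z : ℂˣ) :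
    (hz M.hodge h w z : Matrix (Fin n) (Fin n) ℂ).transpose * bas ℂ M.ψ *
      (hz M.hodge h w z : Matrix (Fin n) (Fin n) ℂ) =
      (((z : ℂ) * (starRingEnd ℂ) (z : ℂ)) ^ w) • bas ℂ M.ψ := by
  set B : Matrix (Fin n) (Fin n) ℂ := (M.hodge : Matrix (Fin n) (Fin n) ℂ) with hB
  set C : Matrix (Fin n) (Fin n) ℂ :=
    ((M.hodge⁻¹ : Matrix.GeneralLinearGroup (Fin n) ℂ) : Matrix (Fin n) (Fin n) ℂ) with hC
  have hBC : B * C = 1 := by
    rw [hB, hC, ← Units.val_mul, mul_inv_cancel]; rfl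
  set P := B.transpose * bas ℂ M.ψ * B with hP
  have hD : Matrix.diagonal (dz h w z) * P * Matrix.diagonal (dz h w z) =
      (((z : ℂ) * (starRingEnd ℂ) (z : ℂ)) ^ w) • P := by
    ext i j
    rw [Matrix.mul_diagonal, Matrix.diagonal_mul, Matrix.smul_apply, smul_eq_mul]
    by_cases h0 : P i j = 0
    · rw [h0]; ring
    · have h1 : h i + h j = w := M.hodge_ψ i j h0
      have h2 : dz h w z i * dz h w z j = ((z : ℂ) * (starRingEnd ℂ) (z : ℂ)) ^ w := by
        simp only [dz]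
        have e1 : w - h i = h j := by omega
        have e2 : w - h j = h i := by omega
        rw [e1, e2, ← h1]; ring
      rw [← h2]; ring
  rw [hz_eq, Matrix.transpose_mul, Matrix.transpose_mul, Matrix.diagonal_transpose]
  have h3 : C.transpose * P * C = bas ℂ M.ψ := by
    have h2 : C.transpose * B.transpose = 1 := by
      rw [← Matrix.transpose_mul, hBC, Matrix.transpose_one]
    calc C.transpose * P * C = (C.transpose * B.transpose) * bas ℂ M.ψ * (B * C) := by
          rw [hP]; simp only [Matrix.mul_assoc]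
      _ = bas ℂ M.ψ := by rw [h2, hBC, Matrix.one_mul, Matrix.mul_one]
  calc C.transpose * (Matrix.diagonal (dz h w z) * B.transpose) * bas ℂ M.ψ *
        (B * Matrix.diagonal (dz h w z) * C)
      = C.transpose * (Matrix.diagonal (dz h w z) * P * Matrix.diagonal (dz h w z)) * C := by
        rw [hP]; simp only [Matrix.mul_assoc]
    _ = _ := by rw [hD, Matrix.mul_smul, Matrix.smul_mul, h3]

lemma pf_hodge (M : PMot F S n w h) {m : ℕ} (hm : n = m + m) : M.IsHodge (pf m M.ψ) := by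
  intro z
  have hz0 : (z : ℂ) * (starRingEnd ℂ) (z : ℂ) ≠ 0 := by
    refine mul_ne_zero z.ne_zero ?_
    rw [Ne, map_eq_zero]
    exact z.ne_zero
  have hc : (((z : ℂ) * (starRingEnd ℂ) (z : ℂ)) ^ w) ≠ 0 := pow_ne_zero _ hz0
  rw [act_pf m M.ψ ℂ _ _ hc (hz_sim M z)]
  funext i j
  rw [hz_det M z hm, ← mul_pow, mul_inv_cancel₀ hc, one_pow, one_mul]

end Hdg

open Hdg in
theorem st_HDG7 (hTEN : ST_TEN) : ST_HDG7 := by
  intro F _ _ S n w h M K _ _ hn g hg
  have hsim : g ∈ Sim M.ψ K := (hTEN.2 K n M.ψ M.ψ_det g).2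
    (hg 2 2 (polTen M.ψ) (M.mot_hodge 2 2 _ M.mot_pol))
  obtain ⟨c, hc⟩ := hsim
  refine ⟨c, hc, fun _ hev => ?_⟩
  obtain ⟨m, hm⟩ := hev
  have hψ := bas_det K M.ψ_det
  have hdet0 : (0 : Matrix (Fin n) (Fin n) K).det = 0 := by
    have : Nonempty (Fin n) := ⟨⟨0, hn⟩⟩
    exact Matrix.det_zero
  have hc0 : c ≠ 0 := by
    rintro rfl
    have h1 : ((g : Matrix (Fin n) (Fin n) K).transpose * bas K M.ψ *
      (g : Matrix (Fin n) (Fin n) K)).det ≠ 0 := by
      rw [Matrix.det_mul, Matrix.det_mul, Matrix.det_transpose]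
      have h2 : (g : Matrix (Fin n) (Fin n) K).det ≠ 0 :=
        ((Matrix.isUnit_iff_isUnit_det _).1 g.isUnit).ne_zero
      exact mul_ne_zero (mul_ne_zero h2 hψ) h2
    rw [hc, zero_smul, hdet0] at h1
    exact h1 rfl
  obtain ⟨x, y, hxy⟩ : ∃ x y, bas K M.ψ x y ≠ 0 := by
    by_contra hcon
    push Not at hcon
    apply hψ
    have : bas K M.ψ = 0 := by ext x y; exact hcon x y
    rw [this, hdet0]
  have h1 := hg n (m + m) (pf m M.ψ) (pf_hodge M hm)
  rw [act_pf m M.ψ K g c hc0 hc] at h1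
  have h2 := congrFun (congrFun h1 id) (Fin.append (fun _ => x) (fun _ => y))
  have h3 : (pf m M.ψ).base K id (Fin.append (fun _ => x) (fun _ => y)) ≠ 0 := by
    rw [pf_base, Em_id, Matrix.det_one, one_mul]
    refine Finset.prod_ne_zero_iff.2 fun r _ => ?_
    rw [Fin.append_left, Fin.append_right]
    exact hxy
  have h4 : (g : Matrix (Fin n) (Fin n) K).det * c⁻¹ ^ m = 1 := by
    have h5 := sub_eq_zero.2 h2
    have h6 : ((g : Matrix (Fin n) (Fin n) K).det * c⁻¹ ^ m - 1) *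
        (pf m M.ψ).base K id (Fin.append (fun _ => x) (fun _ => y)) = 0 := by
      rw [sub_mul, one_mul]; exact h5
    exact sub_eq_zero.1 ((mul_eq_zero.1 h6).resolve_right h3)
  have hm2 : n / 2 = m := by omega
  rw [hm2]
  rw [inv_pow] at h4
  have h7 : c ^ m ≠ 0 := pow_ne_zero _ hc0
  field_simp at h4
  exact h4

end MT
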