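import Mathlib
import Pool.Agent.Helper21.MT7.Stmts


set_option autoImplicit false

namespace MT
namespace Clif

variable {K : Type} [Field K] {n : ℕ}

/-- the algebra generated by a set of matrices, acting on `K^n` -/
noncomputable def Ralg (a : Submodule K (Matrix (Fin n) (Fin n) K)) :
    Subalgebra K (Module.End K (Fin n → K)) :=
  Algebra.adjoin K ((fun A => Matrix.mulVecLin A) '' (a : Set (Matrix (Fin n) (Fin n) K)))

variable {a : Submodule K (Matrix (Fin n) (Fin n) K)}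

def Stab (a : Submodule K (Matrix (Fin n) (Fin n) K)) (U : Submodule K (Fin n → K)) : Prop :=
  ∀ A ∈ a, ∀ v ∈ U, A.mulVec v ∈ U

lemma stab_R {U : Submodule K (Fin n → K)} (hU : Stab a U) (r : Module.End K (Fin n → K))
    (hr : r ∈ Ralg a) : ∀ v ∈ U, r v ∈ U := by
  unfold Ralg at hr
  induction hr using Algebra.adjoin_induction with
  | mem x hx => obtain ⟨A, hA, rfl⟩ := hx; exact fun v hv => hU A hA v hv
  | algebraMap k => intro v hv; simpa [Module.algebraMap_end_apply] using U.smul_mem k hv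
  | add x y _ _ hx hy => intro v hv; exact U.add_mem (hx v hv) (hy v hv)
  | mul x y _ _ hx hy => intro v hv; exact hx _ (hy v hv)

/-- stable subspaces as submodules -/
def toR (U : Submodule K (Fin n → K)) (hU : Stab a U) : Submodule (Ralg a) (Fin n → K) where
  carrier := U
  add_mem' := U.add_mem
  zero_mem' := U.zero_mem
  smul_mem' := fun r v hv => stab_R hU r.1 r.2 v hv

lemma mem_toR (U : Submodule K (Fin n → K)) (hU : Stab a U) (v : Fin n → K) :
    v ∈ toR U hU ↔ v ∈ U := Iff.rfl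

lemma mulVec_mem (U : Submodule (Ralg a) (Fin n → K)) {A : Matrix (Fin n) (Fin n) K} (hA : A ∈ a)
    {v : Fin n → K} (hv : v ∈ U) : A.mulVec v ∈ U :=
  U.smul_mem (⟨Matrix.mulVecLin A, Algebra.subset_adjoin ⟨A, hA, rfl⟩⟩ : Ralg a) hv

lemma smulK_mem (U : Submodule (Ralg a) (Fin n → K)) (k : K)
    {v : Fin n → K} (hv : v ∈ U) : k • v ∈ U := by
  have := U.smul_mem (algebraMap K (Ralg a) k) hv
  simpa using this

/-- submodules as subspaces -/
def toK (U : Submodule (Ralg a) (Fin n → K)) : Submodule K (Fin n → K) where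
  carrier := U
  add_mem' := U.add_mem
  zero_mem' := U.zero_mem
  smul_mem' := fun k _ hv => smulK_mem U k hv

lemma mem_toK (U : Submodule (Ralg a) (Fin n → K)) (v : Fin n → K) : v ∈ toK U ↔ v ∈ U := Iff.rfl

lemma stab_toK (U : Submodule (Ralg a) (Fin n → K)) : Stab a (toK U) :=
  fun _ hA _ hv => mulVec_mem U hA hv

lemma toR_toK (U : Submodule (Ralg a) (Fin n → K)) : toR (toK U) (stab_toK U) = U := by
  ext v; exact Iff.rfl

lemma toK_toR (U : Submodule K (Fin n → K)) (hU : Stab a U) : toK (toR U hU) = U := by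
  ext v; exact Iff.rfl

section Gact
variable {G : Subgroup (Matrix.GeneralLinearGroup (Fin n) K)}

def Nrm (G : Subgroup (Matrix.GeneralLinearGroup (Fin n) K))
    (a : Submodule K (Matrix (Fin n) (Fin n) K)) : Prop :=
  ∀ g ∈ G, ∀ A ∈ a, (g : Matrix (Fin n) (Fin n) K) * A *
      ((g⁻¹ : Matrix.GeneralLinearGroup (Fin n) K) : Matrix (Fin n) (Fin n) K) ∈ a

lemma stab_map (h : Nrm G a) {g : Matrix.GeneralLinearGroup (Fin n) K} (hg : g ∈ G)
    {U : Submodule K (Fin n → K)} (hU : Stab a U) :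
    Stab a (U.map (Matrix.mulVecLin (g : Matrix (Fin n) (Fin n) K))) := by
  rintro A hA _ ⟨v, hv, rfl⟩
  have h1 := h g⁻¹ (G.inv_mem hg) A hA
  rw [inv_inv] at h1
  refine ⟨_, hU _ h1 v hv, ?_⟩
  simp only [Matrix.mulVecLin_apply, Matrix.mulVec_mulVec]
  congr 1
  rw [← mul_assoc, ← mul_assoc]
  have : (g : Matrix (Fin n) (Fin n) K) *
      ((g⁻¹ : Matrix.GeneralLinearGroup (Fin n) K) : Matrix (Fin n) (Fin n) K) = 1 := by
    rw [← Units.val_mul, mul_inv_cancel]; rfl
  rw [this, one_mul]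

lemma map_map_inv (g : Matrix.GeneralLinearGroup (Fin n) K) (U : Submodule K (Fin n → K)) :
    (U.map (Matrix.mulVecLin
      ((g⁻¹ : Matrix.GeneralLinearGroup (Fin n) K) : Matrix (Fin n) (Fin n) K))).map
      (Matrix.mulVecLin (g : Matrix (Fin n) (Fin n) K)) = U := by
  rw [← Submodule.map_comp, ← Matrix.mulVecLin_mul, ← Units.val_mul, mul_inv_cancel]
  simp

/-- the action of the normaliser on submodules -/
def gact (h : Nrm G a) (g : Matrix.GeneralLinearGroup (Fin n) K) (hg : g ∈ G) :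
    Submodule (Ralg a) (Fin n → K) ≃o Submodule (Ralg a) (Fin n → K) where
  toFun U := toR ((toK U).map (Matrix.mulVecLin (g : Matrix (Fin n) (Fin n) K)))
    (stab_map h hg (stab_toK U))
  invFun U := toR ((toK U).map (Matrix.mulVecLin
      ((g⁻¹ : Matrix.GeneralLinearGroup (Fin n) K) : Matrix (Fin n) (Fin n) K)))
    (stab_map h (G.inv_mem hg) (stab_toK U))
  left_inv U := by
    ext v
    rw [mem_toR, toK_toR]
    have := map_map_inv g⁻¹ (toK U)
    rw [inv_inv] at this
    rw [this]; exact Iff.rfl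
  right_inv U := by
    ext v
    rw [mem_toR, toK_toR, map_map_inv g (toK U)]; exact Iff.rfl
  map_rel_iff' := by
    intro U W
    constructor
    · intro hle v hv
      have h1 : (g : Matrix (Fin n) (Fin n) K).mulVec v ∈
          (toK W).map (Matrix.mulVecLin (g : Matrix (Fin n) (Fin n) K)) :=
        hle (⟨v, hv, rfl⟩ : (g : Matrix (Fin n) (Fin n) K).mulVec v ∈
          (toK U).map (Matrix.mulVecLin (g : Matrix (Fin n) (Fin n) K)))
      obtain ⟨w, hw, e⟩ := h1
      have : w = v := by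
        have e2 := congrArg (((g⁻¹ : Matrix.GeneralLinearGroup (Fin n) K) :
          Matrix (Fin n) (Fin n) K).mulVec) e
        simp only [Matrix.mulVecLin_apply, Matrix.mulVec_mulVec] at e2
        rw [← Units.val_mul, inv_mul_cancel] at e2
        simpa using e2
      rw [← this]; exact hw
    · rintro hle _ ⟨v, hv, rfl⟩
      exact ⟨v, hle hv, rfl⟩

end Gact

end Clif
end MT

namespace MT
namespace Clif

variable {K : Type} [Field K] {n : ℕ}
variable {a : Submodule K (Matrix (Fin n) (Fin n) K)}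

/-- the filtration of the kernel -/
def FF (T : Module.End K (Fin n → K)) (k : ℕ) : Submodule K (Fin n → K) :=
  LinearMap.ker T ⊓ LinearMap.range (T ^ k)

lemma FF_succ_le (T : Module.End K (Fin n → K)) (k : ℕ) : FF T (k + 1) ≤ FF T k := by
  rintro v ⟨h1, w, rfl⟩
  refine ⟨h1, T w, ?_⟩
  rw [pow_succ]; rfl

lemma finrank_FF (T : Module.End K (Fin n → K)) (k : ℕ) :
    Module.finrank K (FF T k) + Module.finrank K (LinearMap.range (T ^ (k + 1))) =
      Module.finrank K (LinearMap.range (T ^ k)) := by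
  have h := LinearMap.finrank_range_add_finrank_ker (T ∘ₗ (LinearMap.range (T ^ k)).subtype)
  have h1 : LinearMap.range (T ∘ₗ (LinearMap.range (T ^ k)).subtype) =
      LinearMap.range (T ^ (k + 1)) := by
    rw [LinearMap.range_comp, Submodule.range_subtype, ← LinearMap.range_comp, pow_succ']
    rfl
  have h2 : Module.finrank K (LinearMap.ker (T ∘ₗ (LinearMap.range (T ^ k)).subtype)) =
      Module.finrank K (FF T k) := by
    rw [LinearMap.ker_comp, ← Submodule.finrank_map_subtype_eq, Submodule.map_comap_subtype,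
      FF, inf_comm]
  rw [h1, h2] at h
  omega

lemma sum_ineq (Λ : Finset ℕ) (k : ℕ) :
    (∑ i ∈ Λ, (i - k)) + ∑ i ∈ Λ, (i - (k + 2)) ≤ 2 * (∑ i ∈ Λ, (i - (k + 1))) + 1 := by
  have h : ∀ i : ℕ, (i - k) + (i - (k + 2)) = 2 * (i - (k + 1)) + (if i = k + 1 then 1 else 0) := by
    intro i; split_ifs <;> omega
  rw [← Finset.sum_add_distrib, Finset.sum_congr rfl (fun i _ => h i), Finset.sum_add_distrib,
    ← Finset.mul_sum]
  have h3 : (∑ i ∈ Λ, if i = k + 1 then 1 else 0) ≤ 1 := by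
    rw [Finset.sum_ite_eq' Λ (k + 1) (fun _ => 1)]; split_ifs <;> omega
  omega

lemma finrank_FF_le (T : Module.End K (Fin n → K)) (Λ : Finset ℕ)
    (hT : ∀ k, Module.finrank K (LinearMap.range (T ^ k)) = ∑ i ∈ Λ, (i - k)) (k : ℕ) :
    Module.finrank K (FF T k) ≤ Module.finrank K (FF T (k + 1)) + 1 := by
  have h1 := finrank_FF T k
  have h2 := finrank_FF T (k + 1)
  have h3 := sum_ineq Λ k
  rw [hT, hT] at h1 h2
  have h4 : k + 1 + 1 = k + 2 := rfl
  rw [h4] at h2
  omega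

lemma comb (T : Module.End K (Fin n → K)) (Λ : Finset ℕ)
    (hT : ∀ k, Module.finrank K (LinearMap.range (T ^ k)) = ∑ i ∈ Λ, (i - k)) (k : ℕ)
    {u u' : Fin n → K} (hu : u ∈ FF T k) (hu' : u' ∈ FF T k) :
    ∃ x y : K, (x ≠ 0 ∨ y ≠ 0) ∧ x • u + y • u' ∈ FF T (k + 1) := by
  by_cases h : u ∈ FF T (k + 1)
  · exact ⟨1, 0, Or.inl one_ne_zero, by simpa using h⟩
  · have hlt : FF T (k + 1) < FF T (k + 1) ⊔ Submodule.span K {u} := by
      refine lt_of_le_of_ne le_sup_left fun e => h ?_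
      rw [e]; exact (le_sup_right : Submodule.span K {u} ≤ _) (Submodule.mem_span_singleton_self u)
    have h1 := Submodule.finrank_lt_finrank_of_lt hlt
    have h2 := finrank_FF_le T Λ hT k
    have h3 : FF T (k + 1) ⊔ Submodule.span K {u} ≤ FF T k := by
      refine sup_le (FF_succ_le T k) ?_
      rw [Submodule.span_singleton_le_iff_mem]; exact hu
    have h4 := Submodule.eq_of_le_of_finrank_le h3 (by omega)
    rw [← h4] at hu'
    obtain ⟨f, hf, z, hz, e⟩ := Submodule.mem_sup.1 hu'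
    obtain ⟨x, rfl⟩ := Submodule.mem_span_singleton.1 hz
    refine ⟨-x, 1, Or.inr one_ne_zero, ?_⟩
    rw [← e]
    have : (-x) • u + (1 : K) • (f + x • u) = f := by rw [one_smul, neg_smul]; abel
    rw [this]; exact hf

lemma pow_memR (U : Submodule (Ralg a) (Fin n → K)) {N : Matrix (Fin n) (Fin n) K} (hN : N ∈ a)
    (k : ℕ) {v : Fin n → K} (hv : v ∈ U) : ((Matrix.mulVecLin N : Module.End K (Fin n → K)) ^ k) v ∈ U := by
  induction k with
  | zero => simpa using hv
  | succ k ih =>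
    rw [pow_succ']
    exact mulVec_mem U hN ih

lemma sub_memR (U : Submodule (Ralg a) (Fin n → K)) {v w : Fin n → K} (hv : v ∈ U) (hw : w ∈ U) :
    v - w ∈ U := by
  have h := U.add_mem hv (smulK_mem U (-1) hw)
  rwa [neg_one_smul, ← sub_eq_add_neg] at h

lemma neg_memR (U : Submodule (Ralg a) (Fin n → K)) {v : Fin n → K} (hv : v ∈ U) : -v ∈ U := by
  have h := smulK_mem U (-1) hv
  rwa [neg_one_smul] at h

instance : IsModularLattice (Submodule (Ralg a) (Fin n → K)) := by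
  have := @Submodule.instIsModularLattice (Ralg a) (Fin n → K) _ _ _
  exact this

lemma key [ComplementedLattice (Submodule (Ralg a) (Fin n → K))]
    {N : Matrix (Fin n) (Fin n) K} (hN : N ∈ a) (Λ : Finset ℕ)
    (hT : ∀ k, Module.finrank K (LinearMap.range ((Matrix.mulVecLin N : Module.End K (Fin n → K)) ^ k)) =
      ∑ i ∈ Λ, (i - k)) (k : ℕ)
    {S S' : Submodule (Ralg a) (Fin n → K)} (hS : S ⊓ S' = ⊥)
    {u u' : Fin n → K} (hu : u ∈ S) (hu' : u' ∈ S') (hF : u ∈ FF (Matrix.mulVecLin N) k)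
    (hF' : u' ∈ FF (Matrix.mulVecLin N) k) (h0 : u ≠ 0) (h0' : u' ≠ 0)
    (h1 : ∀ v ∈ S, v ∈ FF (Matrix.mulVecLin N) (k + 1) → v = 0)
    (h1' : ∀ v ∈ S', v ∈ FF (Matrix.mulVecLin N) (k + 1) → v = 0) : False := by
  obtain ⟨x, y, hxy, hk, v, hv⟩ := comb (Matrix.mulVecLin N) Λ hT k hF hF'
  obtain ⟨C, hC⟩ := exists_isCompl (S ⊔ S')
  have hvt : v ∈ (S ⊔ S') ⊔ C := by rw [hC.sup_eq_top]; trivial
  obtain ⟨w, hw, c, hc, rfl⟩ := Submodule.mem_sup.1 hvt
  obtain ⟨s, hs, s', hs', rfl⟩ := Submodule.mem_sup.1 hw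
  have a1 := pow_memR S hN (k + 1) hs
  have a2 := pow_memR S' hN (k + 1) hs'
  have a3 := pow_memR C hN (k + 1) hc
  rw [map_add, map_add] at hv
  have b1 : x • u - ((Matrix.mulVecLin N : Module.End K (Fin n → K)) ^ (k + 1)) s ∈ S :=
    sub_memR S (smulK_mem S x hu) a1
  have b2 : y • u' - ((Matrix.mulVecLin N : Module.End K (Fin n → K)) ^ (k + 1)) s' ∈ S' :=
    sub_memR S' (smulK_mem S' y hu') a2
  have e1 : ((Matrix.mulVecLin N : Module.End K (Fin n → K)) ^ (k + 1)) c =
      (x • u - ((Matrix.mulVecLin N : Module.End K (Fin n → K)) ^ (k + 1)) s) +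
      (y • u' - ((Matrix.mulVecLin N : Module.End K (Fin n → K)) ^ (k + 1)) s') := by
    rw [sub_add_sub_comm, ← hv]; abel
  have e2 : ((Matrix.mulVecLin N : Module.End K (Fin n → K)) ^ (k + 1)) c = 0 := by
    have : ((Matrix.mulVecLin N : Module.End K (Fin n → K)) ^ (k + 1)) c ∈ (S ⊔ S') ⊓ C := by
      refine ⟨?_, a3⟩
      rw [e1]
      exact Submodule.add_mem_sup b1 b2
    rw [hC.inf_eq_bot] at this
    exact (Submodule.mem_bot _).1 this
  rw [e2] at e1
  have e3 : x • u - ((Matrix.mulVecLin N : Module.End K (Fin n → K)) ^ (k + 1)) s = 0 := by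
    have : x • u - ((Matrix.mulVecLin N : Module.End K (Fin n → K)) ^ (k + 1)) s ∈ S ⊓ S' := by
      refine ⟨b1, ?_⟩
      rw [eq_neg_of_add_eq_zero_left e1.symm]
      exact neg_memR S' b2
    rw [hS] at this
    exact (Submodule.mem_bot _).1 this
  have e4 : y • u' - ((Matrix.mulVecLin N : Module.End K (Fin n → K)) ^ (k + 1)) s' = 0 := by
    rw [e3, zero_add] at e1; exact e1.symm
  have c1 : x • u = 0 := by
    refine h1 _ (smulK_mem S x hu) ⟨(LinearMap.ker _).smul_mem x hF.1, s, ?_⟩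
    exact (sub_eq_zero.1 e3).symm
  have c2 : y • u' = 0 := by
    refine h1' _ (smulK_mem S' y hu') ⟨(LinearMap.ker _).smul_mem y hF'.1, s', ?_⟩
    exact (sub_eq_zero.1 e4).symm
  rcases hxy with hx | hy
  · exact h0 ((smul_eq_zero.1 c1).resolve_left hx)
  · exact h0' ((smul_eq_zero.1 c2).resolve_left hy)

lemma exists_k {N : Matrix (Fin n) (Fin n) K} (hN : N ∈ a) (k₀ : ℕ)
    (h0 : (Matrix.mulVecLin N : Module.End K (Fin n → K)) ^ k₀ = 0)
    {S : Submodule (Ralg a) (Fin n → K)} (hS : S ≠ ⊥) :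
    ∃ k : ℕ, k < k₀ ∧ (∃ u ∈ S, u ∈ FF (Matrix.mulVecLin N) k ∧ u ≠ 0) ∧
      ∀ v ∈ S, v ∈ FF (Matrix.mulVecLin N) (k + 1) → v = 0 := by
  classical
  obtain ⟨v, hv, hv0⟩ := Submodule.exists_mem_ne_zero_of_ne_bot hS
  have hP0 : ∃ u ∈ S, u ∈ FF (Matrix.mulVecLin N) 0 ∧ u ≠ 0 := by
    have hex : ∃ j, ((Matrix.mulVecLin N : Module.End K (Fin n → K)) ^ j) v = 0 :=
      ⟨k₀, by rw [h0]; rfl⟩
    have hj := Nat.find_spec hex
    have hj0 : Nat.find hex ≠ 0 := by
      intro e; rw [e] at hj; exact hv0 (by simpa using hj)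
    obtain ⟨i, hi⟩ := Nat.exists_eq_succ_of_ne_zero hj0
    have hi' : ((Matrix.mulVecLin N : Module.End K (Fin n → K)) ^ i) v ≠ 0 :=
      Nat.find_min hex (by omega)
    refine ⟨_, pow_memR S hN i hv, ⟨?_, by simp⟩, hi'⟩
    rw [hi, Nat.succ_eq_add_one, pow_succ'] at hj
    exact hj
  have hex2 : ∃ k, ¬ ∃ u ∈ S, u ∈ FF (Matrix.mulVecLin N) k ∧ u ≠ 0 := by
    refine ⟨k₀, ?_⟩
    rintro ⟨u, _, ⟨_, w, rfl⟩, hu⟩
    exact hu (by rw [h0]; rfl)
  have hk := Nat.find_spec hex2
  have hk0 : Nat.find hex2 ≠ 0 := by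
    intro e; rw [e] at hk; exact hk hP0
  have hle : Nat.find hex2 ≤ k₀ := by
    apply Nat.find_min'
    rintro ⟨u, _, ⟨_, w, rfl⟩, hu⟩
    exact hu (by rw [h0]; rfl)
  obtain ⟨i, hi⟩ := Nat.exists_eq_succ_of_ne_zero hk0
  have hi' := Nat.find_min hex2 (m := i) (by omega)
  rw [not_not] at hi'
  refine ⟨i, by omega, hi', fun v hv hvF => ?_⟩
  by_contra hne
  rw [hi] at hk
  exact hk ⟨v, hv, hvF, hne⟩

theorem finite_atoms [ComplementedLattice (Submodule (Ralg a) (Fin n → K))]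
    {N : Matrix (Fin n) (Fin n) K} (hN : N ∈ a) (Λ : Finset ℕ)
    (hT : ∀ k, Module.finrank K (LinearMap.range ((Matrix.mulVecLin N : Module.End K (Fin n → K)) ^ k)) =
      ∑ i ∈ Λ, (i - k)) : {S : Submodule (Ralg a) (Fin n → K) | IsAtom S}.Finite := by
  classical
  obtain ⟨k₀, hk₀⟩ : ∃ k₀ : ℕ, ∀ i ∈ Λ, i ≤ k₀ := ⟨Λ.sup id, fun i hi => Finset.le_sup (f := id) hi⟩
  have h0 : (Matrix.mulVecLin N : Module.End K (Fin n → K)) ^ k₀ = 0 := by
    have h1 := hT k₀
    rw [Finset.sum_eq_zero (fun i hi => Nat.sub_eq_zero_of_le (hk₀ i hi)),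
      Submodule.finrank_eq_zero, LinearMap.range_eq_bot] at h1
    exact h1
  have hch : ∀ S : {S : Submodule (Ralg a) (Fin n → K) | IsAtom S}, ∃ k : Fin k₀,
      (∃ u ∈ S.1, u ∈ FF (Matrix.mulVecLin N) k ∧ u ≠ 0) ∧
      ∀ v ∈ S.1, v ∈ FF (Matrix.mulVecLin N) (k + 1) → v = 0 := by
    rintro ⟨S, hS⟩
    obtain ⟨k, hk, h⟩ := exists_k hN k₀ h0 hS.1
    exact ⟨⟨k, hk⟩, h⟩
  choose κ hκ using hch
  rw [← Set.finite_coe_iff]
  refine Finite.of_injective κ ?_
  intro S S' e
  by_contra hne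
  have hdis : S.1 ⊓ S'.1 = ⊥ := by
    have := S.2.disjoint_of_ne S'.2 (fun h => hne (Subtype.ext h))
    exact this.eq_bot
  obtain ⟨⟨u, hu, hF, hu0⟩, h1⟩ := hκ S
  obtain ⟨⟨u', hu', hF', hu0'⟩, h1'⟩ := hκ S'
  rw [← e] at hF' h1'
  exact key hN Λ hT (κ S) hdis hu hu' hF hF' hu0 hu0' h1 h1'

end Clif

open Clif in
theorem st_CLIF : ST_CLIF := by
  classical
  intro K _ n G a N Λ hG hnorm hN hrk U hU
  have hnrm : Nrm G a := hnorm
  by_cases hn : n = 0
  · subst hn
    left
    rw [eq_bot_iff]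
    intro v _
    rw [Submodule.mem_bot]
    exact Subsingleton.elim _ _
  have : Nonempty (Fin n) := ⟨⟨0, Nat.pos_of_ne_zero hn⟩⟩
  have hT : ∀ k, Module.finrank K (LinearMap.range
      ((Matrix.mulVecLin N : Module.End K (Fin n → K)) ^ k)) = ∑ i ∈ Λ, (i - k) := by
    intro k
    have hp : (Matrix.mulVecLin N : Module.End K (Fin n → K)) ^ k = Matrix.mulVecLin (N ^ k) := by
      induction k with
      | zero => simp; rfl
      | succ k ih => rw [pow_succ, pow_succ, Matrix.mulVecLin_mul, ← ih]; rfl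
    rw [← hrk k, Matrix.rank, hp]
  have hart : IsArtinian (Ralg a) (Fin n → K) := isArtinian_of_tower K inferInstance
  have hatom : IsAtomic (Submodule (Ralg a) (Fin n → K)) :=
    isAtomic_of_orderBot_wellFounded_lt wellFounded_lt
  obtain ⟨S, hS, -⟩ := (IsAtomic.eq_bot_or_exists_atom_le
    (⊤ : Submodule (Ralg a) (Fin n → K))).resolve_left top_ne_bot
  -- the sum of all simple submodules
  have hsup : sSup {S : Submodule (Ralg a) (Fin n → K) | IsAtom S} = ⊤ := by
    set A := sSup {S : Submodule (Ralg a) (Fin n → K) | IsAtom S} with hA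
    have hinv : ∀ g (hg : g ∈ G), gact hnrm g hg A = A := by
      intro g hg
      rw [hA, map_sSup]
      congr 1
      ext T
      simp only [Set.mem_image, Set.mem_ofPred_eq]
      constructor
      · rintro ⟨T, hT, rfl⟩
        exact (OrderIso.isAtom_iff _ _).2 hT
      · intro hT
        exact ⟨(gact hnrm g hg).symm T, (OrderIso.isAtom_iff _ _).2 hT, by simp⟩
    have hfin : {U' : Submodule K (Fin n → K) | ∃ g ∈ G,
        U' = (toK A).map (Matrix.mulVecLin (g : Matrix (Fin n) (Fin n) K))}.Finite := by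
      refine Set.Finite.subset (Set.finite_singleton (toK A)) ?_
      rintro _ ⟨g, hg, rfl⟩
      rw [Set.mem_singleton_iff]
      have := congrArg toK (hinv g hg)
      exact this
    rcases hG _ hfin with h | h
    · exfalso
      apply hS.1
      rw [eq_bot_iff]
      intro v hv
      have h1 : v ∈ A := (le_sSup (a := S) hS) hv
      have h2 : v ∈ toK A := h1
      rw [h, Submodule.mem_bot] at h2
      rw [Submodule.mem_bot]; exact h2
    · rw [eq_top_iff]
      intro v _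
      have h2 : v ∈ toK A := by rw [h]; trivial
      exact h2
  have hcomp : ComplementedLattice (Submodule (Ralg a) (Fin n → K)) :=
    complementedLattice_of_sSup_atoms_eq_top hsup
  have hfinat := finite_atoms hN Λ hT
  have hfin : {U' : Submodule K (Fin n → K) | ∃ g ∈ G,
      U' = (toK S).map (Matrix.mulVecLin (g : Matrix (Fin n) (Fin n) K))}.Finite := by
    refine Set.Finite.subset (hfinat.image toK) ?_
    rintro _ ⟨g, hg, rfl⟩
    exact ⟨gact hnrm g hg S, (OrderIso.isAtom_iff _ _).2 hS, rfl⟩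
  have hStop : S = ⊤ := by
    rcases hG _ hfin with h | h
    · exfalso
      apply hS.1
      rw [eq_bot_iff]
      intro v hv
      have h2 : v ∈ toK S := hv
      rw [h, Submodule.mem_bot] at h2
      rw [Submodule.mem_bot]; exact h2
    · rw [eq_top_iff]
      intro v _
      have h2 : v ∈ toK S := by rw [h]; trivial
      exact h2
  rw [hStop] at hS
  by_cases htop : toR U hU = ⊤
  · right
    rw [eq_top_iff]
    intro v _
    have h2 : v ∈ toR U hU := by rw [htop]; trivial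
    exact h2
  · left
    have h3 := hS.2 _ (lt_top_iff_ne_top.2 htop)
    rw [eq_bot_iff]
    intro v hv
    have h2 : v ∈ toR U hU := hv
    rw [h3, Submodule.mem_bot] at h2
    rw [Submodule.mem_bot]; exact h2

end MT
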